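import Mathlib
import Pool.Agent.CA72.Normal
import Pool.Agent.CA.ThreePoint2
import Pool.Agent.CA5.ThmA

/-!
Hadwiger's conjecture for circular-arc graphs (theorem of helper72).
-/

set_option autoImplicit false

namespace Pool.Agent.CA68

theorem mem_arc_iff (a b x : ℝ) :
    (x : AddCircle (1 : ℝ)) ∈ (fun y : ℝ => (y : AddCircle (1 : ℝ))) '' Set.Icc a b ↔
      ∃ m : ℤ, a ≤ x + m ∧ x + m ≤ b := by
  constructor
  · rintro ⟨y, ⟨hy1, hy2⟩, hyx⟩
    have hyx : (y : AddCircle (1 : ℝ)) = (x : AddCircle (1 : ℝ)) := hyx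
    rw [← sub_eq_zero, ← AddCircle.coe_sub, AddCircle.coe_eq_zero_iff] at hyx
    obtain ⟨n, hn⟩ := hyx
    refine ⟨n, ?_, ?_⟩
    · have : x + (n : ℝ) = y := by
        rw [zsmul_eq_mul, mul_one] at hn
        linarith
      rw [this]; exact hy1
    · have : x + (n : ℝ) = y := by
        rw [zsmul_eq_mul, mul_one] at hn
        linarith
      rw [this]; exact hy2
  · rintro ⟨m, h1, h2⟩
    refine ⟨x + m, ⟨h1, h2⟩, ?_⟩
    show ((x + m : ℝ) : AddCircle (1 : ℝ)) = (x : AddCircle (1 : ℝ))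
    rw [← sub_eq_zero, ← AddCircle.coe_sub, AddCircle.coe_eq_zero_iff]
    exact ⟨m, by rw [zsmul_eq_mul, mul_one]; ring⟩

/-- Every circular-arc graph satisfies Hadwiger's conjecture.  `G` is the intersection graph of finitely many
closed arcs `I v` of the circle `ℝ / ℤ` (a point and the whole circle are allowed).  If `G` has no proper colouring
with `k` colours then it has a `K_{k+1}` minor. -/
theorem arcs {V : Type} [Fintype V] (G : SimpleGraph V) (I : V → Set (AddCircle (1 : ℝ)))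
    (hI : ∀ v, ∃ a b : ℝ, a ≤ b ∧ I v = (fun x : ℝ => (x : AddCircle (1 : ℝ))) '' Set.Icc a b)
    (hG : ∀ u v, G.Adj u v ↔ u ≠ v ∧ (I u ∩ I v).Nonempty)
    (k : ℕ) (hk : ¬ G.Colorable k) :
    ∃ f : Fin (k + 1) → Set V,
      (∀ i, (G.induce (f i)).Connected) ∧
      (∀ i j, i ≠ j → Disjoint (f i) (f j)) ∧
      (∀ i j, i ≠ j → ∃ u ∈ f i, ∃ v ∈ f j, G.Adj u v) := by
  classical
  choose a b hab hI using hI
  have hmem : ∀ v (x : ℝ), (x : AddCircle (1 : ℝ)) ∈ I v ↔ ∃ m : ℤ, a v ≤ x + m ∧ x + m ≤ b v := by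
    intro v x
    rw [hI v]
    exact mem_arc_iff (a v) (b v) x
  refine Pool.Agent.CA72.hadwiger_of
    (fun V _ G M k hG hc hcc x y hxy hf => Pool.Agent.CA5.thmA hG hc hcc hxy hf)
    Pool.Agent.CA.threeClique G k ⟨a, b, hab, ?_⟩ hk
  intro u v
  rw [hG u v]
  refine and_congr_right fun _ => ?_
  constructor
  · rintro ⟨z, hz1, hz2⟩
    induction z using QuotientAddGroup.induction_on with
    | H x => exact ⟨x, (hmem u x).1 hz1, (hmem v x).1 hz2⟩
  · rintro ⟨x, hx1, hx2⟩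
    exact ⟨(x : AddCircle (1 : ℝ)), (hmem u x).2 hx1, (hmem v x).2 hx2⟩

end Pool.Agent.CA68
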