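import Mathlib

/-!
From critical pieces with connected complement to arbitrary graphs.
-/

set_option autoImplicit false

namespace Pool.Agent.CA68

variable {V : Type}

/-- `n` pairwise disjoint, pairwise joined connected sets inside `S`. -/
def HM (G : SimpleGraph V) (S : Set V) (n : ℕ) : Prop :=
  ∃ f : Fin n → Set V, (∀ i, f i ⊆ S) ∧ (∀ i, (G.induce (f i)).Connected) ∧
    (∀ i j, i ≠ j → Disjoint (f i) (f j)) ∧
    (∀ i j, i ≠ j → ∃ u ∈ f i, ∃ v ∈ f j, G.Adj u v)

theorem HM.mono {G : SimpleGraph V} {S T : Set V} {n : ℕ} (h : HM G S n) (hST : S ⊆ T) :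
    HM G T n := by
  obtain ⟨f, h1, h2, h3, h4⟩ := h
  exact ⟨f, fun i => (h1 i).trans hST, h2, h3, h4⟩

theorem HM.le {G : SimpleGraph V} {S : Set V} {n m : ℕ} (h : HM G S n) (hm : m ≤ n) :
    HM G S m := by
  obtain ⟨f, h1, h2, h3, h4⟩ := h
  refine ⟨fun i => f (Fin.castLE hm i), fun i => h1 _, fun i => h2 _, ?_, ?_⟩
  · intro i j hij
    exact h3 _ _ (fun e => hij (Fin.castLE_injective hm e))
  · intro i j hij
    exact h4 _ _ (fun e => hij (Fin.castLE_injective hm e))

theorem HM.zero (G : SimpleGraph V) (S : Set V) : HM G S 0 :=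
  ⟨fun i => i.elim0, fun i => i.elim0, fun i => i.elim0, fun i => i.elim0, fun i => i.elim0⟩

theorem HM.join {G : SimpleGraph V} {A B : Set V} {a b : ℕ} (hA : HM G A a) (hB : HM G B b)
    (hd : Disjoint A B) (hj : ∀ u ∈ A, ∀ v ∈ B, G.Adj u v) : HM G (A ∪ B) (a + b) := by
  obtain ⟨f, f1, f2, f3, f4⟩ := hA
  obtain ⟨g, g1, g2, g3, g4⟩ := hB
  have hne : ∀ i, (f i).Nonempty := fun i => by
    obtain ⟨x⟩ := (f2 i).nonempty
    exact ⟨x.1, x.2⟩
  have hne' : ∀ i, (g i).Nonempty := fun i => by
    obtain ⟨x⟩ := (g2 i).nonempty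
    exact ⟨x.1, x.2⟩
  refine ⟨Fin.append f g, ?_, ?_, ?_, ?_⟩
  · intro i
    refine Fin.addCases (fun i => ?_) (fun i => ?_) i
    · rw [Fin.append_left]
      exact (f1 i).trans Set.subset_union_left
    · rw [Fin.append_right]
      exact (g1 i).trans Set.subset_union_right
  · intro i
    refine Fin.addCases (fun i => ?_) (fun i => ?_) i
    · rw [Fin.append_left]
      exact f2 i
    · rw [Fin.append_right]
      exact g2 i
  · intro i j
    refine Fin.addCases (fun i => ?_) (fun i => ?_) i <;>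
      refine Fin.addCases (fun j => ?_) (fun j => ?_) j <;> intro hij
    · rw [Fin.append_left, Fin.append_left]
      exact f3 _ _ (fun e => hij (by rw [e]))
    · rw [Fin.append_left, Fin.append_right]
      exact Set.disjoint_of_subset (f1 _) (g1 _) hd
    · rw [Fin.append_right, Fin.append_left]
      exact (Set.disjoint_of_subset (f1 _) (g1 _) hd).symm
    · rw [Fin.append_right, Fin.append_right]
      exact g3 _ _ (fun e => hij (by rw [e]))
  · intro i j
    refine Fin.addCases (fun i => ?_) (fun i => ?_) i <;>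
      refine Fin.addCases (fun j => ?_) (fun j => ?_) j <;> intro hij
    · rw [Fin.append_left, Fin.append_left]
      exact f4 _ _ (fun e => hij (by rw [e]))
    · rw [Fin.append_left, Fin.append_right]
      obtain ⟨u, hu⟩ := hne i
      obtain ⟨v, hv⟩ := hne' j
      exact ⟨u, hu, v, hv, hj u (f1 _ hu) v (g1 _ hv)⟩
    · rw [Fin.append_right, Fin.append_left]
      obtain ⟨u, hu⟩ := hne' i
      obtain ⟨v, hv⟩ := hne j
      exact ⟨u, hu, v, hv, (hj v (f1 _ hv) u (g1 _ hu)).symm⟩
    · rw [Fin.append_right, Fin.append_right]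
      exact g4 _ _ (fun e => hij (by rw [e]))

theorem join_colorable (G : SimpleGraph V) (A B : Set V) (a b : ℕ)
    (hA : (G.induce A).Colorable a) (hB : (G.induce B).Colorable b) :
    (G.induce (A ∪ B)).Colorable (a + b) := by
  classical
  obtain ⟨cA⟩ := hA
  obtain ⟨cB⟩ := hB
  let c : ↥(A ∪ B) → Fin a ⊕ Fin b := fun v =>
    if h : v.1 ∈ A then Sum.inl (cA ⟨v.1, h⟩) else Sum.inr (cB ⟨v.1, v.2.resolve_left h⟩)
  have hc : ∀ {u v : ↥(A ∪ B)}, (G.induce (A ∪ B)).Adj u v → c u ≠ c v := by
    intro u v huv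
    have huv' : G.Adj u.1 v.1 := huv
    by_cases hu : u.1 ∈ A <;> by_cases hv : v.1 ∈ A
    · simp only [c, dif_pos hu, dif_pos hv]
      intro e
      exact cA.valid (v := ⟨u.1, hu⟩) (w := ⟨v.1, hv⟩) huv' (Sum.inl_injective e)
    · simp only [c, dif_pos hu, dif_neg hv]
      exact Sum.inl_ne_inr
    · simp only [c, dif_neg hu, dif_pos hv]
      exact Sum.inr_ne_inl
    · simp only [c, dif_neg hu, dif_neg hv]
      intro e
      exact cB.valid (v := ⟨u.1, u.2.resolve_left hu⟩) (w := ⟨v.1, v.2.resolve_left hv⟩) huv'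
        (Sum.inr_injective e)
  have h := (SimpleGraph.Coloring.mk c hc).colorable
  rw [Fintype.card_sum, Fintype.card_fin, Fintype.card_fin] at h
  exact h

theorem exists_least (G : SimpleGraph V) [Finite V] (A : Set V)
    (ih : ∀ k, ¬ (G.induce A).Colorable k → HM G A (k + 1)) :
    ∃ a, (G.induce A).Colorable a ∧ HM G A a := by
  classical
  have : Fintype A := Fintype.ofFinite A
  have hex : ∃ n, (G.induce A).Colorable n := ⟨_, (G.induce A).colorable_of_fintype⟩
  refine ⟨Nat.find hex, Nat.find_spec hex, ?_⟩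
  rcases Nat.eq_zero_or_pos (Nat.find hex) with h0 | h0
  · rw [h0]
    exact HM.zero G A
  · have h1 := Nat.find_min hex (m := Nat.find hex - 1) (by omega)
    have h2 := ih _ h1
    rwa [Nat.sub_add_cancel h0] at h2

/-- A set whose complement graph is disconnected is a join. -/
theorem exists_join (G : SimpleGraph V) (S : Set V) (hne : S.Nonempty)
    (hc : ¬ (Gᶜ.induce S).Connected) :
    ∃ A B : Set V, A ∪ B = S ∧ Disjoint A B ∧ A.Nonempty ∧ B.Nonempty ∧
      ∀ u ∈ A, ∀ v ∈ B, G.Adj u v := by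
  have h1 : ¬ (Gᶜ.induce S).Preconnected := by
    intro h
    apply hc
    have : Nonempty S := hne.to_subtype
    exact SimpleGraph.Connected.mk h
  have h2 : ∃ u v : S, ¬ (Gᶜ.induce S).Reachable u v := by
    by_contra hcon
    push Not at hcon
    exact h1 (fun u v => hcon u v)
  obtain ⟨u, v, huv⟩ := h2
  refine ⟨{w | ∃ h : w ∈ S, (Gᶜ.induce S).Reachable u ⟨w, h⟩},
    {w | ∃ h : w ∈ S, ¬ (Gᶜ.induce S).Reachable u ⟨w, h⟩}, ?_, ?_, ?_, ?_, ?_⟩
  · ext w
    constructor
    · rintro (⟨h, -⟩ | ⟨h, -⟩)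
      · exact h
      · exact h
    · intro h
      by_cases hr : (Gᶜ.induce S).Reachable u ⟨w, h⟩
      · exact Or.inl ⟨h, hr⟩
      · exact Or.inr ⟨h, hr⟩
  · rw [Set.disjoint_left]
    rintro w ⟨h, hr⟩ ⟨h', hr'⟩
    exact hr' hr
  · exact ⟨u.1, u.2, SimpleGraph.Reachable.refl _⟩
  · exact ⟨v.1, v.2, huv⟩
  · rintro x ⟨hx, hrx⟩ y ⟨hy, hry⟩
    by_contra hadj
    apply hry
    have hxy : x ≠ y := by
      rintro rfl
      exact hry hrx
    refine hrx.trans (SimpleGraph.Adj.reachable ?_)
    show Gᶜ.Adj x y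
    rw [SimpleGraph.compl_adj]
    exact ⟨hxy, hadj⟩

/-- The reduction to vertex-critical pieces with connected complement. -/
theorem pieces [Finite V] (G : SimpleGraph V)
    (hG : ∀ (S : Set V) (k : ℕ), ¬ (G.induce S).Colorable k →
      (∀ v ∈ S, (G.induce (S \ {v})).Colorable k) → (Gᶜ.induce S).Connected → HM G S (k + 1)) :
    ∀ (n : ℕ) (S : Set V), S.ncard = n → ∀ k, ¬ (G.induce S).Colorable k → HM G S (k + 1) := by
  classical
  intro n
  induction n using Nat.strong_induction_on with
  | _ n ih =>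
    intro S hn k hk
    have ih' : ∀ T : Set V, T ⊂ S → ∀ k, ¬ (G.induce T).Colorable k → HM G T (k + 1) := by
      intro T hT k hk
      have h1 : T.ncard < S.ncard := Set.ncard_lt_ncard hT (Set.toFinite S)
      exact ih T.ncard (by omega) T rfl k hk
    by_cases hcrit : ∀ v ∈ S, (G.induce (S \ {v})).Colorable k
    · by_cases hcon : (Gᶜ.induce S).Connected
      · exact hG S k hk hcrit hcon
      · have hne : S.Nonempty := by
          by_contra hemp
          rw [Set.not_nonempty_iff_eq_empty] at hemp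
          apply hk
          subst hemp
          exact ⟨SimpleGraph.Coloring.mk (fun v => (v.2.elim : Fin k)) (fun {v} => v.2.elim)⟩
        obtain ⟨A, B, hAB, hd, hA, hB, hj⟩ := exists_join G S hne hcon
        have hAS : A ⊂ S := by
          rw [← hAB]
          refine ⟨Set.subset_union_left, fun h => ?_⟩
          obtain ⟨y, hy⟩ := hB
          exact (Set.disjoint_left.1 hd (h (Or.inr hy))) hy
        have hBS : B ⊂ S := by
          rw [← hAB]
          refine ⟨Set.subset_union_right, fun h => ?_⟩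
          obtain ⟨x, hx⟩ := hA
          exact (Set.disjoint_left.1 hd hx) (h (Or.inl hx))
        obtain ⟨a, ha, hma⟩ := exists_least G A (ih' A hAS)
        obtain ⟨b, hb, hmb⟩ := exists_least G B (ih' B hBS)
        have hlt : k < a + b := by
          by_contra hle
          push Not at hle
          apply hk
          rw [← hAB]
          exact (join_colorable G A B a b ha hb).mono hle
        have h3 := (hma.join hmb hd hj).le hlt
        rw [hAB] at h3
        exact h3
    · push Not at hcrit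
      obtain ⟨v, hv, hkv⟩ := hcrit
      have hT : S \ {v} ⊂ S := by
        refine ⟨Set.sdiff_subset, fun h => ?_⟩
        exact (h hv).2 rfl
      exact (ih' _ hT k hkv).mono Set.sdiff_subset

end Pool.Agent.CA68
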